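import Mathlib

/-!
Volumes over thin simplices (first part: Lebesgue measure).
-/

set_option autoImplicit false

noncomputable section

open MeasureTheory Set
open scoped ENNReal

namespace Pool.Agent.TH581.HH

abbrev E (n : ℕ) := EuclideanSpace ℝ (Fin n)

def D (m : ℕ) : Set (Fin m → ℝ) := {z | (∀ i, 0 < z i) ∧ ∑ i, z i < 1}

def tl {m : ℕ} (x : E (m + 1)) : Fin m → ℝ := fun i => x i.succ

def Om (m : ℕ) (ε : ℝ) : Set (E (m + 1)) :=
  {x | tl x ∈ D m ∧ 0 < x 0 ∧ x 0 < ε * (1 - ∑ i, tl x i)}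

def ph {m : ℕ} (δ : ℝ) (z : Fin m → ℝ) : ℝ := max 0 (1 - (∑ i, z i) / δ)

lemma isOpen_D (m : ℕ) : IsOpen (D m) := by
  have h1 : IsOpen {z : Fin m → ℝ | ∀ i, 0 < z i} := by
    have : {z : Fin m → ℝ | ∀ i, 0 < z i} = ⋂ i, {z | 0 < z i} := by ext; simp
    rw [this]
    exact isOpen_iInter_of_finite fun i => isOpen_lt continuous_const (continuous_apply i)
  have h2 : IsOpen {z : Fin m → ℝ | ∑ i, z i < 1} := isOpen_lt (by fun_prop) continuous_const
  exact h1.inter h2

lemma cont_ph {m : ℕ} (δ : ℝ) : Continuous (ph (m := m) δ) := by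
  unfold ph; fun_prop

lemma cont_tl {m : ℕ} : Continuous (tl (m := m)) := by
  unfold tl; fun_prop

lemma isOpen_Om (m : ℕ) (ε : ℝ) : IsOpen (Om m ε) := by
  have h1 : IsOpen {x : E (m + 1) | 0 < x 0} := isOpen_lt continuous_const (by fun_prop)
  have h2 : IsOpen {x : E (m + 1) | x 0 < ε * (1 - ∑ i, tl x i)} := by
    have := cont_tl (m := m)
    exact isOpen_lt (by fun_prop) (by fun_prop)
  exact ((isOpen_D m).preimage cont_tl).inter (h1.inter h2)

/-- Fubini over the thin simplex -/
lemma lint_Om {m : ℕ} (ε : ℝ) {g : (Fin m → ℝ) → ℝ≥0∞} (hg : Measurable g) :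
    ∫⁻ x in Om m ε, g (tl x) = ∫⁻ z in D m, g z * ENNReal.ofReal (ε * (1 - ∑ i, z i)) := by
  have e1 := volume_preserving_piFinSuccAbove (fun _ : Fin (m + 1) => ℝ) 0
  have e2 := PiLp.volume_preserving_ofLp (Fin (m + 1))
  have e := e1.comp e2
  set A : Set (ℝ × (Fin m → ℝ)) := {p | p.2 ∈ D m ∧ 0 < p.1 ∧ p.1 < ε * (1 - ∑ i, p.2 i)} with hA
  have hAm : MeasurableSet A := by
    refine IsOpen.measurableSet ?_
    have h1 : IsOpen {p : ℝ × (Fin m → ℝ) | 0 < p.1} := isOpen_lt continuous_const (by fun_prop)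
    have h2 : IsOpen {p : ℝ × (Fin m → ℝ) | p.1 < ε * (1 - ∑ i, p.2 i)} :=
      isOpen_lt (by fun_prop) (by fun_prop)
    exact ((isOpen_D m).preimage continuous_snd).inter (h1.inter h2)
  have hs := e.setLIntegral_comp_preimage hAm (hg.comp measurable_snd)
  have h1 : ∫⁻ x in Om m ε, g (tl x) = ∫⁻ p in A, g p.2 := hs
  rw [h1, ← lintegral_indicator hAm, Measure.volume_eq_prod, lintegral_prod_symm']
  · rw [← lintegral_indicator (isOpen_D m).measurableSet]
    refine lintegral_congr fun z => ?_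
    by_cases hz : z ∈ D m
    · rw [indicator_of_mem hz]
      have h2 : ∀ y : ℝ, A.indicator (fun p => g p.2) (y, z) =
          (Ioo 0 (ε * (1 - ∑ i, z i))).indicator (fun _ => g z) y := by
        intro y
        by_cases hy : y ∈ Ioo 0 (ε * (1 - ∑ i, z i))
        · rw [indicator_of_mem hy, indicator_of_mem (show (y, z) ∈ A from ⟨hz, hy.1, hy.2⟩)]
        · rw [indicator_of_notMem hy, indicator_of_notMem]
          intro h
          exact hy ⟨h.2.1, h.2.2⟩
      simp_rw [h2]
      rw [lintegral_indicator measurableSet_Ioo, lintegral_const]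
      simp
    · rw [indicator_of_notMem hz]
      have h2 : ∀ y : ℝ, A.indicator (fun p => g p.2) (y, z) = 0 := by
        intro y
        rw [indicator_of_notMem]
        intro h
        exact hz h.1
      simp_rw [h2]
      simp
  · exact (hg.comp measurable_snd).indicator hAm

def spx (k : ℕ) (r : ℝ) : Set (Fin k → ℝ) := {x | (∀ i, 0 < x i) ∧ ∑ i, x i < r}

lemma volume_spx (k : ℕ) : ∀ r : ℝ, 0 < r →
    volume (spx k r) = ENNReal.ofReal (r ^ k / k.factorial) := by
  induction k with
  | zero =>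
    intro r hr
    have : spx 0 r = univ := by
      ext x; simp [spx, hr]
    rw [this]
    simp [volume_pi]
  | succ k ih =>
    intro r hr
    have e := volume_preserving_piFinSuccAbove (fun _ : Fin (k + 1) => ℝ) 0
    set A : Set (ℝ × (Fin k → ℝ)) := {p | 0 < p.1 ∧ p.2 ∈ spx k (r - p.1)} with hA
    have hpre : (MeasurableEquiv.piFinSuccAbove (fun _ : Fin (k + 1) => ℝ) 0) ⁻¹' A =
        spx (k + 1) r := by
      ext x
      change (0 < x 0 ∧ (∀ i : Fin k, 0 < x (Fin.succ i)) ∧ ∑ i : Fin k, x (Fin.succ i) < r - x 0) ↔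
        ((∀ i, 0 < x i) ∧ ∑ i, x i < r)
      rw [Fin.forall_fin_succ, Fin.sum_univ_succ]
      constructor
      · rintro ⟨h1, h2, h3⟩; exact ⟨⟨h1, h2⟩, by linarith⟩
      · rintro ⟨⟨h1, h2⟩, h3⟩; exact ⟨h1, h2, by linarith⟩
    have hAm : MeasurableSet A := by
      have h1 : MeasurableSet {p : ℝ × (Fin k → ℝ) | 0 < p.1} :=
        measurableSet_lt measurable_const measurable_fst
      have h2 : MeasurableSet {p : ℝ × (Fin k → ℝ) | ∀ i, 0 < p.2 i} := by
        have : {p : ℝ × (Fin k → ℝ) | ∀ i, 0 < p.2 i} = ⋂ i, {p | 0 < p.2 i} := by ext; simp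
        rw [this]
        exact MeasurableSet.iInter fun i =>
          measurableSet_lt measurable_const ((measurable_pi_apply i).comp measurable_snd)
      have h3 : MeasurableSet {p : ℝ × (Fin k → ℝ) | ∑ i, p.2 i < r - p.1} :=
        measurableSet_lt (Finset.measurable_sum _ fun i _ =>
          (measurable_pi_apply i).comp measurable_snd) (measurable_const.sub measurable_fst)
      exact h1.inter (h2.inter h3)
    rw [← hpre, e.measure_preimage_equiv, Measure.volume_eq_prod, Measure.prod_apply hAm]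
    have hfun : ∀ t : ℝ, volume (Prod.mk t ⁻¹' A) =
        (Ioo 0 r).indicator (fun t => ENNReal.ofReal ((r - t) ^ k / k.factorial)) t := by
      intro t
      by_cases ht : t ∈ Ioo 0 r
      · rw [indicator_of_mem ht, ← ih (r - t) (by linarith [ht.2])]
        congr 1
        ext x
        exact ⟨fun h => h.2, fun h => ⟨ht.1, h⟩⟩
      · rw [indicator_of_notMem ht]
        have : Prod.mk t ⁻¹' A = ∅ := by
          rw [Set.eq_empty_iff_forall_notMem]
          rintro x ⟨h1, h2, h3⟩
          apply ht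
          refine ⟨h1, ?_⟩
          have : 0 ≤ ∑ i, x i := Finset.sum_nonneg fun i _ => (h2 i).le
          have h1' : (0:ℝ) < t := h1
          have h3' : ∑ i, x i < r - t := h3
          linarith
        rw [this, measure_empty]
    simp_rw [hfun]
    rw [lintegral_indicator measurableSet_Ioo]
    rw [← ofReal_integral_eq_lintegral_ofReal]
    · congr 1
      rw [← integral_Ioc_eq_integral_Ioo, ← intervalIntegral.integral_of_le hr.le,
        intervalIntegral.integral_div]
      have := intervalIntegral.integral_comp_sub_left (fun x : ℝ => x ^ k) (a := 0) (b := r) r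
      rw [this, integral_pow]
      rw [Nat.factorial_succ]
      push_cast
      simp only [sub_self, sub_zero]
      have : (k.factorial : ℝ) ≠ 0 := by positivity
      field_simp
      simp
    · have : Continuous (fun t : ℝ => (r - t) ^ k / (k.factorial : ℝ)) := by fun_prop
      exact (this.integrableOn_Icc (a := 0) (b := r)).mono_set Ioo_subset_Icc_self
    · filter_upwards [ae_restrict_mem measurableSet_Ioo] with t ht
      have : 0 ≤ r - t := by linarith [ht.2]
      positivity

lemma vol_D (m : ℕ) : volume (D m) = ENNReal.ofReal (1 / m.factorial) := by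
  have := volume_spx m 1 one_pos
  rw [one_pow] at this
  exact this

/-- `∫_D (1 - Σ z) = 1/(m+1)!` -/
lemma lint_D (m : ℕ) :
    ∫⁻ z in D m, ENNReal.ofReal (1 - ∑ i, z i) = ENNReal.ofReal (1 / (m + 1).factorial) := by
  have h := lint_Om (m := m) 1 (g := fun _ => 1) measurable_const
  simp only [one_mul, lintegral_const, MeasurableSet.univ, Measure.restrict_apply,
    univ_inter] at h
  rw [← h]
  have e2 := PiLp.volume_preserving_ofLp (Fin (m + 1))
  have hpre : (WithLp.ofLp : E (m + 1) → (Fin (m + 1) → ℝ)) ⁻¹' (spx (m + 1) 1) = Om m 1 := by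
    ext x
    change ((∀ i, 0 < x i) ∧ ∑ i, x i < 1) ↔
      (((∀ i : Fin m, 0 < x i.succ) ∧ ∑ i : Fin m, x i.succ < 1) ∧ 0 < x 0 ∧
        x 0 < 1 * (1 - ∑ i : Fin m, x i.succ))
    rw [Fin.forall_fin_succ, Fin.sum_univ_succ]
    constructor
    · rintro ⟨⟨h1, h2⟩, h3⟩; exact ⟨⟨h2, by linarith⟩, h1, by linarith⟩
    · rintro ⟨⟨h1, h2⟩, h3, h4⟩; exact ⟨⟨h3, h1⟩, by linarith⟩
  have hm : MeasurableSet (spx (m + 1) 1) := (isOpen_D (m + 1)).measurableSet
  have := e2.measure_preimage hm.nullMeasurableSet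
  rw [hpre] at this
  rw [this, volume_spx (m + 1) 1 one_pos, one_pow]

lemma vol_Om (m : ℕ) {ε : ℝ} (hε : 0 < ε) :
    volume (Om m ε) = ENNReal.ofReal (ε / (m + 1).factorial) := by
  have h := lint_Om (m := m) ε (g := fun _ => 1) measurable_const
  simp only [one_mul, lintegral_const, MeasurableSet.univ, Measure.restrict_apply,
    univ_inter] at h
  rw [h]
  have h2 : ∀ z : Fin m → ℝ, ENNReal.ofReal (ε * (1 - ∑ i, z i)) =
      ENNReal.ofReal ε * ENNReal.ofReal (1 - ∑ i, z i) := fun z => ENNReal.ofReal_mul hε.le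
  simp_rw [h2]
  rw [lintegral_const_mul _ (by fun_prop), lint_D, ← ENNReal.ofReal_mul hε.le]
  congr 1
  ring

/-- the integral of the convex function -/
def J (m : ℕ) (δ : ℝ) : ℝ≥0∞ := ∫⁻ z in D m, ENNReal.ofReal (ph δ z)

lemma lint_low {m : ℕ} {ε δ : ℝ} (hε : 0 < ε) (hδ : 0 < δ) :
    ENNReal.ofReal (ε * (1 - δ)) * J m δ ≤ ∫⁻ x in Om m ε, ENNReal.ofReal (ph δ (tl x)) := by
  have hmeas : Measurable fun z : Fin m → ℝ => ENNReal.ofReal (ph δ z) :=
    (cont_ph δ).measurable.ennreal_ofReal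
  rw [lint_Om ε hmeas, J, ← lintegral_const_mul _ hmeas]
  refine lintegral_mono fun z => ?_
  rw [mul_comm]
  by_cases hz : ph δ z = 0
  · simp [hz]
  · refine mul_le_mul_right (ENNReal.ofReal_le_ofReal ?_) _
    refine mul_le_mul_of_nonneg_left ?_ hε.le
    have h1 : 0 < 1 - (∑ i, z i) / δ := by
      by_contra h
      exact hz (max_eq_left (not_lt.1 h))
    have h2 : (∑ i, z i) / δ < 1 := by linarith
    rw [div_lt_one hδ] at h2
    linarith

lemma J_ne_top (m : ℕ) {δ : ℝ} (hδ : 0 < δ) : J m δ ≠ ⊤ := by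
  have h : J m δ ≤ ∫⁻ z in D m, 1 := by
    refine setLIntegral_mono measurable_const fun z hz => ?_
    rw [← ENNReal.ofReal_one]
    refine ENNReal.ofReal_le_ofReal (max_le zero_le_one ?_)
    have : 0 ≤ (∑ i, z i) / δ := div_nonneg (Finset.sum_nonneg fun i _ => (hz.1 i).le) hδ.le
    linarith
  refine ne_top_of_le_ne_top ?_ h
  rw [lintegral_const, Measure.restrict_apply MeasurableSet.univ, univ_inter, vol_D, one_mul]
  exact ENNReal.ofReal_ne_top

lemma J_pos (m : ℕ) {δ : ℝ} (hδ : 0 < δ) (hδ1 : δ < 1) : J m δ ≠ 0 := by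
  have hmeas : Measurable fun z : Fin m → ℝ => ENNReal.ofReal (ph δ z) :=
    (cont_ph δ).measurable.ennreal_ofReal
  intro h
  rw [J, lintegral_eq_zero_iff hmeas] at h
  have hU : IsOpen (D m ∩ {z | ∑ i, z i < δ}) :=
    (isOpen_D m).inter (isOpen_lt (by fun_prop) continuous_const)
  have hne : (D m ∩ {z | ∑ i, z i < δ}).Nonempty := by
    refine ⟨fun _ => δ / (m + 1), ⟨fun _ => by positivity, ?_⟩, ?_⟩
    · simp only [Finset.sum_const, Finset.card_univ, Fintype.card_fin, nsmul_eq_mul]
      have : (m : ℝ) * (δ / (m + 1)) < δ := by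
        rw [mul_div_assoc', div_lt_iff₀ (by positivity)]
        nlinarith
      linarith
    · change ∑ _i : Fin m, δ / ((m : ℝ) + 1) < δ
      simp only [Finset.sum_const, Finset.card_univ, Fintype.card_fin, nsmul_eq_mul]
      rw [mul_div_assoc', div_lt_iff₀ (by positivity)]
      nlinarith
  have hpos := hU.measure_pos volume hne
  have h2 : volume (D m ∩ {z | ∑ i, z i < δ}) = 0 := by
    have h3 := (ae_restrict_iff' (isOpen_D m).measurableSet).1 h
    rw [ae_iff] at h3
    refine measure_mono_null ?_ h3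
    rintro z ⟨hz, hz2⟩ h4
    have h5 := h4 hz
    simp only [Pi.zero_apply, ENNReal.ofReal_eq_zero] at h5
    have h6 : (∑ i, z i) / δ < 1 := by rw [div_lt_one hδ]; exact hz2
    have h7 : 0 < ph δ z := lt_max_of_lt_right (by linarith)
    linarith
  rw [h2] at hpos
  exact lt_irrefl _ hpos

end Pool.Agent.TH581.HH
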