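import Pool.Agent.TH581.HH.A

/-!
Hausdorff measure of the boundary of a thin simplex.
-/

set_option autoImplicit false

noncomputable section

open MeasureTheory Set
open scoped ENNReal NNReal

namespace Pool.Agent.TH581.HH

lemma lip_image {X Y : Type*} [EMetricSpace X] [MeasurableSpace X] [BorelSpace X]
    [EMetricSpace Y] [MeasurableSpace Y] [BorelSpace Y] {g : X → Y} {K : ℝ≥0}
    (h : LipschitzWith K g) (d : ℕ) (s : Set X) :
    (μHE[d] : Measure Y) (g '' s) ≤ (K : ℝ≥0∞) ^ d * (μHE[d] : Measure X) s := by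
  simp only [Measure.euclideanHausdorffMeasure_def, Measure.smul_apply]
  have := h.hausdorffMeasure_image_le (d := (d : ℝ)) (by positivity) s
  rw [ENNReal.rpow_natCast] at this
  rw [ENNReal.smul_def, ENNReal.smul_def, smul_eq_mul, smul_eq_mul, mul_left_comm]
  gcongr

/-- integrals over Lipschitz images -/
lemma lip_lint {m : ℕ} {g : E m → E (m + 1)} {K : ℝ≥0} (h : LipschitzWith K g) (S : Set (E m))
    {f : E (m + 1) → ℝ≥0∞} (hf : Measurable f) :
    ∫⁻ x in g '' S, f x ∂(μHE[m] : Measure (E (m + 1))) ≤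
      (K : ℝ≥0∞) ^ m * ∫⁻ z in S, f (g z) := by
  have hgm : Measurable g := h.continuous.measurable
  have h1 : (μHE[m] : Measure (E (m + 1))).restrict (g '' S) ≤
      (K : ℝ≥0∞) ^ m • Measure.map g (volume.restrict S) := by
    refine Measure.le_iff.2 fun B hB => ?_
    rw [Measure.restrict_apply hB, Measure.smul_apply, Measure.map_apply hgm hB,
      Measure.restrict_apply (hgm hB), smul_eq_mul]
    have h2 : B ∩ g '' S ⊆ g '' (g ⁻¹' B ∩ S) := by
      rintro _ ⟨hb, z, hz, rfl⟩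
      exact ⟨z, ⟨hb, hz⟩, rfl⟩
    refine (measure_mono h2).trans ((lip_image h m _).trans ?_)
    rw [EuclideanSpace.euclideanHausdorffMeasure_eq_volume]
  refine (lintegral_mono' h1 le_rfl).trans ?_
  rw [lintegral_smul_measure, lintegral_map hf hgm, smul_eq_mul]

/-- graph map -/
def gr {m : ℕ} (a : ℝ) (z : E m) : E (m + 1) :=
  WithLp.toLp 2 (Fin.cons (a * (1 - ∑ i, z i)) (fun i => z i))

lemma gr_zero {m : ℕ} (a : ℝ) (z : E m) : gr a z 0 = a * (1 - ∑ i, z i) := rfl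
lemma gr_succ {m : ℕ} (a : ℝ) (z : E m) (i : Fin m) : gr a z i.succ = z i := rfl
lemma tl_gr {m : ℕ} (a : ℝ) (z : E m) : tl (gr a z) = z.ofLp := rfl

lemma sum_sq_le {m : ℕ} (x y : E m) : (∑ i, x i - ∑ i, y i) ^ 2 ≤ m * dist x y ^ 2 := by
  rw [EuclideanSpace.dist_eq, Real.sq_sqrt (by positivity), ← Finset.sum_sub_distrib]
  have h := sq_sum_le_card_mul_sum_sq (s := (Finset.univ : Finset (Fin m)))
    (f := fun i => x i - y i)
  simp only [Finset.card_univ, Fintype.card_fin] at h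
  refine h.trans (le_of_eq ?_)
  congr 1
  refine Finset.sum_congr rfl fun i _ => ?_
  rw [Real.dist_eq, sq_abs]

lemma dist_gr {m : ℕ} (a : ℝ) (x y : E m) :
    dist (gr a x) (gr a y) ^ 2 = a ^ 2 * (∑ i, x i - ∑ i, y i) ^ 2 + dist x y ^ 2 := by
  rw [EuclideanSpace.dist_eq, EuclideanSpace.dist_eq, Real.sq_sqrt (by positivity),
    Real.sq_sqrt (by positivity), Fin.sum_univ_succ]
  simp only [gr_zero, gr_succ, Real.dist_eq, sq_abs]
  congr 1
  ring

def Kc (m : ℕ) (a : ℝ) : ℝ≥0 := ⟨1 + |a| * m, by positivity⟩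

lemma lip_gr {m : ℕ} (a : ℝ) : LipschitzWith (Kc m a) (gr (m := m) a) := by
  refine LipschitzWith.of_dist_le_mul fun x y => ?_
  have h1 := dist_gr a x y
  have h2 := sum_sq_le x y
  have h3 : (0 : ℝ) ≤ dist x y := dist_nonneg
  have hm : (m : ℝ) ≤ m ^ 2 := by
    rcases Nat.eq_zero_or_pos m with h | h
    · subst h; simp
    · have : (1 : ℝ) ≤ m := by exact_mod_cast h
      nlinarith
  refine abs_le_of_sq_le_sq' ?_ (by positivity) |>.2
  change dist (gr a x) (gr a y) ^ 2 ≤ ((1 + |a| * m) * dist x y) ^ 2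
  rw [h1]
  have h4 : a ^ 2 * (∑ i, x i - ∑ i, y i) ^ 2 ≤ |a| ^ 2 * (m ^ 2 * dist x y ^ 2) := by
    rw [sq_abs]
    refine mul_le_mul_of_nonneg_left (h2.trans ?_) (sq_nonneg a)
    exact mul_le_mul_of_nonneg_right hm (by positivity)
  have h5 : 0 ≤ 2 * (|a| * m) * dist x y ^ 2 := by positivity
  nlinarith

/-- projection -/
def pr {m : ℕ} (x : E (m + 1)) : E m := WithLp.toLp 2 (tl x)

lemma pr_gr {m : ℕ} (a : ℝ) (z : E m) : pr (gr a z) = z := rfl

lemma lip_pr {m : ℕ} : LipschitzWith 1 (pr (m := m)) := by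
  refine LipschitzWith.of_dist_le_mul fun x y => ?_
  rw [NNReal.coe_one, one_mul]
  refine abs_le_of_sq_le_sq' ?_ dist_nonneg |>.2
  rw [EuclideanSpace.dist_eq, EuclideanSpace.dist_eq, Real.sq_sqrt (by positivity),
    Real.sq_sqrt (by positivity), Fin.sum_univ_succ]
  have : 0 ≤ dist (x 0) (y 0) ^ 2 := sq_nonneg _
  have e : ∀ i : Fin m, dist ((pr x) i) ((pr y) i) ^ 2 = dist (x i.succ) (y i.succ) ^ 2 :=
    fun i => rfl
  simp only [e]
  linarith

/-- side maps -/
def sd {m : ℕ} (i : Fin m) (z : E m) : E (m + 1) :=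
  WithLp.toLp 2 (i.succ.insertNth (0 : ℝ) (fun j => z j))

lemma sd_same {m : ℕ} (i : Fin m) (z : E m) : sd i z i.succ = 0 := by
  simp [sd]
lemma sd_above {m : ℕ} (i : Fin m) (z : E m) (j : Fin m) :
    sd i z (i.succ.succAbove j) = z j := by
  simp [sd]

lemma lip_sd {m : ℕ} (i : Fin m) : LipschitzWith 1 (sd i) := by
  refine LipschitzWith.of_dist_le_mul fun x y => ?_
  rw [NNReal.coe_one, one_mul]
  refine abs_le_of_sq_le_sq' ?_ dist_nonneg |>.2
  rw [EuclideanSpace.dist_eq, EuclideanSpace.dist_eq, Real.sq_sqrt (by positivity),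
    Real.sq_sqrt (by positivity), Fin.sum_univ_succAbove _ i.succ]
  simp [sd_same, sd_above]

end Pool.Agent.TH581.HH
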