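import Pool.Agent.TH581.HH.B

/-!
The boundary of a thin simplex.
-/

set_option autoImplicit false

noncomputable section

open MeasureTheory Set
open scoped ENNReal NNReal

namespace Pool.Agent.TH581.HH

def DE (m : ℕ) : Set (E m) := WithLp.ofLp ⁻¹' D m

lemma isOpen_DE (m : ℕ) : IsOpen (DE m) := (isOpen_D m).preimage (by fun_prop)

lemma convex_D (m : ℕ) : Convex ℝ (D m) := by
  intro x hx y hy a b ha hb hab
  refine ⟨fun i => ?_, ?_⟩
  · have h1 := hx.1 i
    have h2 := hy.1 i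
    simp only [Pi.add_apply, Pi.smul_apply, smul_eq_mul]
    rcases ha.eq_or_lt with h | h
    · rw [← h] at hab ⊢
      have : b = 1 := by linarith
      rw [this]; linarith
    · have := mul_pos h h1
      have := mul_nonneg hb h2.le
      linarith
  · have h1 := hx.2
    have h2 := hy.2
    simp only [Pi.add_apply, Pi.smul_apply, smul_eq_mul, Finset.sum_add_distrib,
      ← Finset.mul_sum]
    rcases ha.eq_or_lt with h | h
    · rw [← h] at hab ⊢
      have : b = 1 := by linarith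
      rw [this]; linarith
    · have h3 : a * ∑ i, x i < a * 1 := mul_lt_mul_of_pos_left h1 h
      have h4 : b * ∑ i, y i ≤ b * 1 := mul_le_mul_of_nonneg_left h2.le hb
      linarith

lemma convex_DE (m : ℕ) : Convex ℝ (DE m) := by
  intro x hx y hy a b ha hb hab
  exact convex_D m hx hy ha hb hab

lemma vol_DE (m : ℕ) : volume (DE m) = ENNReal.ofReal (1 / m.factorial) := by
  rw [← vol_D m]
  exact (PiLp.volume_preserving_ofLp (Fin m)).measure_preimage
    (isOpen_D m).measurableSet.nullMeasurableSet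

lemma restrict_closure (m : ℕ) :
    (volume : Measure (E m)).restrict (closure (DE m)) = volume.restrict (DE m) := by
  refine Measure.restrict_congr_set ?_
  rw [closure_eq_self_union_frontier]
  have h := (convex_DE m).addHaar_frontier (volume : Measure (E m))
  exact union_ae_eq_left_of_ae_eq_empty (ae_eq_empty.2 h)

lemma lint_DE {m : ℕ} {g : (Fin m → ℝ) → ℝ≥0∞} (hg : Measurable g) :
    ∫⁻ z in closure (DE m), g z.ofLp = ∫⁻ z in D m, g z := by
  rw [restrict_closure]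
  exact (PiLp.volume_preserving_ofLp (Fin m)).setLIntegral_comp_preimage
    (isOpen_D m).measurableSet hg

def Box (k : ℕ) (ε : ℝ) : Set (E (k + 1)) := {z | z 0 ∈ Icc 0 ε ∧ ∀ j : Fin k, z j.succ ∈ Icc 0 1}

lemma vol_Box (k : ℕ) {ε : ℝ} : volume (Box k ε) = ENNReal.ofReal ε := by
  have e := PiLp.volume_preserving_ofLp (Fin (k + 1))
  set t : Fin (k + 1) → Set ℝ := Fin.cons (Icc 0 ε) (fun _ => Icc 0 1) with ht
  have h1 : Box k ε = WithLp.ofLp ⁻¹' (univ.pi t) := by
    ext z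
    simp only [Box, mem_preimage, mem_univ_pi, Fin.forall_fin_succ, ht, Fin.cons_zero,
      Fin.cons_succ]
    rfl
  have h2 : MeasurableSet (univ.pi t) := by
    refine MeasurableSet.univ_pi fun i => ?_
    refine Fin.cases ?_ (fun j => ?_) i
    · simp [ht]
    · simp [ht]
  rw [h1, e.measure_preimage h2.nullMeasurableSet, volume_pi_pi, Fin.prod_univ_succ]
  simp [ht]

lemma cl_Om {m : ℕ} {ε : ℝ} {x : E (m + 1)} (hx : x ∈ closure (Om m ε)) :
    pr x ∈ closure (DE m) ∧ (∀ i : Fin m, 0 ≤ x i.succ) ∧ ∑ i, tl x i ≤ 1 ∧ 0 ≤ x 0 ∧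
      x 0 ≤ ε * (1 - ∑ i, tl x i) := by
  refine ⟨map_mem_closure lip_pr.continuous hx fun y hy => hy.1, ?_⟩
  have hc : IsClosed {x : E (m + 1) | (∀ i : Fin m, 0 ≤ x i.succ) ∧ ∑ i, tl x i ≤ 1 ∧ 0 ≤ x 0 ∧
      x 0 ≤ ε * (1 - ∑ i, tl x i)} := by
    have h0 := cont_tl (m := m)
    have h1 : IsClosed {x : E (m + 1) | ∀ i : Fin m, 0 ≤ x i.succ} := by
      have : {x : E (m + 1) | ∀ i : Fin m, 0 ≤ x i.succ} = ⋂ i : Fin m, {x | 0 ≤ x i.succ} := by
        ext; simp
      rw [this]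
      exact isClosed_iInter fun i => isClosed_le continuous_const (by fun_prop)
    have h2 : IsClosed {x : E (m + 1) | ∑ i, tl x i ≤ 1} :=
      isClosed_le (by fun_prop) continuous_const
    have h3 : IsClosed {x : E (m + 1) | 0 ≤ x 0} := isClosed_le continuous_const (by fun_prop)
    have h4 : IsClosed {x : E (m + 1) | x 0 ≤ ε * (1 - ∑ i, tl x i)} :=
      isClosed_le (by fun_prop) (by fun_prop)
    exact h1.inter (h2.inter (h3.inter h4))
  have hsub : Om m ε ⊆ {x : E (m + 1) | (∀ i : Fin m, 0 ≤ x i.succ) ∧ ∑ i, tl x i ≤ 1 ∧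
      0 ≤ x 0 ∧ x 0 ≤ ε * (1 - ∑ i, tl x i)} :=
    fun y hy => ⟨fun i => (hy.1.1 i).le, hy.1.2.le, hy.2.1.le, hy.2.2.le⟩
  exact closure_minimal hsub hc hx

lemma eq_gr {m : ℕ} {a : ℝ} {x : E (m + 1)} (h : x 0 = a * (1 - ∑ i, tl x i)) :
    gr a (pr x) = x := by
  ext i
  refine Fin.cases ?_ (fun j => ?_) i
  · exact h.symm
  · rfl

lemma frontier_sub {k : ℕ} {ε : ℝ} (hε : 0 < ε) :
    frontier (Om (k + 1) ε) ⊆ gr 0 '' closure (DE (k + 1)) ∪ gr ε '' closure (DE (k + 1)) ∪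
      ⋃ i : Fin (k + 1), sd i '' Box k ε := by
  intro x hx
  rw [(isOpen_Om _ _).frontier_eq] at hx
  obtain ⟨hx1, hx2⟩ := hx
  obtain ⟨h1, h2, h3, h4, h5⟩ := cl_Om hx1
  by_cases h6 : x 0 = 0
  · left; left
    exact ⟨pr x, h1, eq_gr (by rw [h6, zero_mul])⟩
  by_cases h7 : x 0 = ε * (1 - ∑ i, tl x i)
  · left; right
    exact ⟨pr x, h1, eq_gr h7⟩
  right
  have h8 : 0 < x 0 := lt_of_le_of_ne h4 (Ne.symm h6)
  have h9 : x 0 < ε * (1 - ∑ i, tl x i) := lt_of_le_of_ne h5 h7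
  have h10 : ∑ i, tl x i < 1 := by
    by_contra h
    have : ε * (1 - ∑ i, tl x i) ≤ 0 := mul_nonpos_of_nonneg_of_nonpos hε.le (by linarith)
    linarith
  have h11 : ∃ i : Fin (k + 1), x i.succ = 0 := by
    by_contra h
    push Not at h
    exact hx2 ⟨⟨fun i => lt_of_le_of_ne (h2 i) (Ne.symm (h i)), h10⟩, h8, h9⟩
  obtain ⟨i, hi⟩ := h11
  refine mem_iUnion.2 ⟨i, WithLp.toLp 2 (fun j => x (i.succ.succAbove j)), ⟨?_, fun j => ?_⟩, ?_⟩
  · change x (i.succ.succAbove 0) ∈ Icc 0 ε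
    rw [Fin.succ_succAbove_zero]
    refine ⟨h4, h5.trans ?_⟩
    have : 0 ≤ ∑ i, tl x i := Finset.sum_nonneg fun i _ => h2 i
    nlinarith
  · change x (i.succ.succAbove j.succ) ∈ Icc 0 1
    rw [Fin.succ_succAbove_succ]
    refine ⟨h2 _, le_trans ?_ h3⟩
    exact Finset.single_le_sum (f := fun i => tl x i) (fun i _ => h2 i) (Finset.mem_univ _)
  · ext l
    rcases Fin.eq_self_or_eq_succAbove i.succ l with h | ⟨j, h⟩
    · rw [h, sd_same, hi]
    · rw [h, sd_above]

lemma upper {k : ℕ} {ε δ : ℝ} (hε : 0 < ε) (hδ : 0 < δ) :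
    ∫⁻ x in frontier (Om (k + 1) ε), ENNReal.ofReal (ph δ (tl x))
      ∂(μHE[k + 1] : Measure (E (k + 1 + 1))) ≤
      (1 + (Kc (k + 1) ε : ℝ≥0∞) ^ (k + 1)) * J (k + 1) δ + (k + 1) * ENNReal.ofReal ε := by
  have hf : Measurable fun x : E (k + 1 + 1) => ENNReal.ofReal (ph δ (tl x)) :=
    ((cont_ph δ).comp cont_tl).measurable.ennreal_ofReal
  have hg : Measurable fun z : Fin (k + 1) → ℝ => ENNReal.ofReal (ph δ z) :=
    (cont_ph δ).measurable.ennreal_ofReal
  have hgr : ∀ a : ℝ, ∫⁻ x in gr a '' closure (DE (k + 1)), ENNReal.ofReal (ph δ (tl x))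
      ∂(μHE[k + 1] : Measure (E (k + 1 + 1))) ≤ (Kc (k + 1) a : ℝ≥0∞) ^ (k + 1) * J (k + 1) δ := by
    intro a
    refine (lip_lint (lip_gr a) _ hf).trans ?_
    rw [J, ← lint_DE hg]
    rfl
  have hsd : ∀ i : Fin (k + 1), ∫⁻ x in sd i '' Box k ε, ENNReal.ofReal (ph δ (tl x))
      ∂(μHE[k + 1] : Measure (E (k + 1 + 1))) ≤ ENNReal.ofReal ε := by
    intro i
    refine (lip_lint (lip_sd i) _ hf).trans ?_
    rw [ENNReal.coe_one, one_pow, one_mul]
    have h : ∫⁻ z in Box k ε, ENNReal.ofReal (ph δ (tl (sd i z))) ≤ ∫⁻ z in Box k ε, 1 := by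
      refine setLIntegral_mono measurable_const fun z hz => ?_
      rw [← ENNReal.ofReal_one]
      refine ENNReal.ofReal_le_ofReal (max_le zero_le_one ?_)
      have hz' : ∀ j : Fin (k + 1), 0 ≤ z j := by
        intro j
        refine Fin.cases hz.1.1 (fun l => (hz.2 l).1) j
      have h1 : ∀ l, 0 ≤ sd i z l := by
        intro l
        rcases Fin.eq_self_or_eq_succAbove i.succ l with h | ⟨j, h⟩
        · rw [h, sd_same]
        · rw [h, sd_above]; exact hz' j
      have : 0 ≤ (∑ j, tl (sd i z) j) / δ :=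
        div_nonneg (Finset.sum_nonneg fun j _ => h1 _) hδ.le
      linarith
    refine h.trans ?_
    rw [lintegral_const, Measure.restrict_apply MeasurableSet.univ, univ_inter, vol_Box, one_mul]
  refine (lintegral_mono_set (frontier_sub hε)).trans ?_
  refine (lintegral_union_le _ _ _).trans ?_
  refine add_le_add ((lintegral_union_le _ _ _).trans ?_) ?_
  · rw [add_mul]
    refine add_le_add ((hgr 0).trans (le_of_eq ?_)) (hgr ε)
    have : Kc (k + 1) 0 = 1 := by
      apply NNReal.eq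
      change (1 : ℝ) + |0| * ((k + 1 : ℕ) : ℝ) = 1
      simp
    rw [this]; simp
  · refine (lintegral_iUnion_le _ _).trans ?_
    rw [tsum_fintype]
    refine (Finset.sum_le_sum fun i _ => hsd i).trans ?_
    simp

lemma upper_meas {k : ℕ} {ε : ℝ} (hε : 0 < ε) :
    (μHE[k + 1] : Measure (E (k + 1 + 1))) (frontier (Om (k + 1) ε)) ≠ ⊤ := by
  have hv : volume (closure (DE (k + 1))) ≠ ⊤ := by
    have h := congrArg (fun μ : Measure (E (k + 1)) => μ univ) (restrict_closure (k + 1))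
    simp only [Measure.restrict_apply MeasurableSet.univ, univ_inter] at h
    rw [h, vol_DE]
    exact ENNReal.ofReal_ne_top
  have hgr : ∀ a : ℝ, (μHE[k + 1] : Measure (E (k + 1 + 1))) (gr a '' closure (DE (k + 1))) ≠ ⊤ := by
    intro a
    refine ne_top_of_le_ne_top ?_ (lip_image (lip_gr a) (k + 1) _)
    rw [EuclideanSpace.euclideanHausdorffMeasure_eq_volume]
    exact ENNReal.mul_ne_top (ENNReal.pow_ne_top ENNReal.coe_ne_top) hv
  have hsd : ∀ i, (μHE[k + 1] : Measure (E (k + 1 + 1))) (sd i '' Box k ε) ≠ ⊤ := by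
    intro i
    refine ne_top_of_le_ne_top ?_ (lip_image (lip_sd i) (k + 1) _)
    rw [EuclideanSpace.euclideanHausdorffMeasure_eq_volume, vol_Box]
    exact ENNReal.mul_ne_top (ENNReal.pow_ne_top ENNReal.coe_ne_top) ENNReal.ofReal_ne_top
  refine ne_top_of_le_ne_top ?_ (measure_mono (frontier_sub hε))
  refine ne_top_of_le_ne_top ?_ (measure_union_le _ _)
  refine ENNReal.add_ne_top.2 ⟨ne_top_of_le_ne_top (ENNReal.add_ne_top.2 ⟨hgr 0, hgr ε⟩)
    (measure_union_le _ _), ?_⟩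
  refine ne_top_of_le_ne_top ?_ (measure_iUnion_le _)
  rw [tsum_fintype]
  exact ENNReal.sum_ne_top.2 fun i _ => hsd i

lemma lower {m : ℕ} {ε : ℝ} (hε : 0 < ε) :
    2 * ENNReal.ofReal (1 / m.factorial) ≤
      (μHE[m] : Measure (E (m + 1))) (frontier (Om m ε)) := by
  have hcl : ∀ a ∈ Icc 0 ε, ∀ z ∈ DE m, gr a z ∈ closure (Om m ε) := by
    intro a ha z hz
    have hc : Continuous fun t : ℝ => gr t z := by
      unfold gr
      have : Continuous fun t : ℝ => (Fin.cons (t * (1 - ∑ i, z i)) (fun i => z i) :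
          Fin (m + 1) → ℝ) := by
        refine continuous_pi fun i => ?_
        refine Fin.cases ?_ (fun j => ?_) i
        · simp only [Fin.cons_zero]; fun_prop
        · simp only [Fin.cons_succ]; fun_prop
      fun_prop
    have ha' : a ∈ closure (Ioo 0 ε) := by rw [closure_Ioo hε.ne]; exact ha
    refine map_mem_closure (f := fun t => gr t z) hc ha' fun t ht => ⟨hz, ?_, ?_⟩
    · rw [gr_zero]
      have : ∑ i, z i < 1 := hz.2
      exact mul_pos ht.1 (by linarith)
    · rw [gr_zero]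
      have : ∑ i, z i < 1 := hz.2
      exact mul_lt_mul_of_pos_right ht.2 (sub_pos.2 this)
  have hvol : ∀ a, ENNReal.ofReal (1 / m.factorial) ≤
      (μHE[m] : Measure (E (m + 1))) (gr a '' DE m) := by
    intro a
    have h := lip_image (lip_pr (m := m)) m (gr a '' DE m)
    rw [image_image] at h
    simp only [pr_gr, image_id', ENNReal.coe_one, one_pow, one_mul] at h
    rw [EuclideanSpace.euclideanHausdorffMeasure_eq_volume, vol_DE] at h
    exact h
  have hT : MeasurableSet {x : E (m + 1) | x 0 ≤ 0} :=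
    (isClosed_le (by fun_prop) continuous_const).measurableSet
  rw [← measure_inter_add_sdiff (frontier (Om m ε)) hT, two_mul]
  refine add_le_add ((hvol 0).trans (measure_mono ?_)) ((hvol ε).trans (measure_mono ?_))
  · rintro _ ⟨z, hz, rfl⟩
    refine ⟨?_, ?_⟩
    · rw [(isOpen_Om _ _).frontier_eq]
      refine ⟨hcl 0 ⟨le_rfl, hε.le⟩ z hz, fun h => ?_⟩
      have := h.2.1
      rw [gr_zero, zero_mul] at this
      exact lt_irrefl _ this
    · change gr 0 z 0 ≤ 0
      rw [gr_zero, zero_mul]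
  · rintro _ ⟨z, hz, rfl⟩
    refine ⟨?_, ?_⟩
    · rw [(isOpen_Om _ _).frontier_eq]
      refine ⟨hcl ε ⟨hε.le, le_rfl⟩ z hz, fun h => ?_⟩
      exact lt_irrefl _ h.2.2
    · change ¬ (gr ε z 0 ≤ 0)
      rw [gr_zero, not_le]
      have : ∑ i, z i < 1 := hz.2
      exact mul_pos hε (by linarith)

end Pool.Agent.TH581.HH
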