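import Pool.Agent.TH581.HH.C

/-!
The definition of the inequality, and the lower bound for the constant.
-/

set_option autoImplicit false

noncomputable section

open MeasureTheory Set Filter
open scoped ENNReal NNReal Topology

namespace Pool.Agent.TH581.HH

/-- the Hermite-Hadamard inequality with the constant `c` for all bounded convex domains of `ℝⁿ`
and all nonnegative functions which are continuous on the closure and convex on the domain -/
def HHIneq (n : ℕ) (c : ℝ) : Prop :=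
  ∀ Ω : Set (E n), IsOpen Ω → Convex ℝ Ω → Bornology.IsBounded Ω → Ω.Nonempty →
    ∀ f : E n → ℝ, ContinuousOn f (closure Ω) → (∀ x ∈ closure Ω, 0 ≤ f x) → ConvexOn ℝ Ω f →
      1 / volume.real Ω * ∫ x in Ω, f x ≤
        c / (μHE[n - 1] : Measure (E n)).real (frontier Ω) *
          ∫ x in frontier Ω, f x ∂(μHE[n - 1] : Measure (E n))

lemma convex_Om (m : ℕ) (ε : ℝ) : Convex ℝ (Om m ε) := by
  intro x hx y hy a b ha hb hab
  refine ⟨convex_D m hx.1 hy.1 ha hb hab, ?_, ?_⟩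
  · have h1 := hx.2.1
    have h2 := hy.2.1
    simp only [PiLp.add_apply, PiLp.smul_apply, smul_eq_mul]
    rcases ha.eq_or_lt with h | h
    · rw [← h] at hab ⊢
      have : b = 1 := by linarith
      rw [this]; linarith
    · have := mul_pos h h1
      have := mul_nonneg hb h2.le
      linarith
  · have h1 := hx.2.2
    have h2 := hy.2.2
    have e : ∑ i, tl (a • x + b • y) i = a * ∑ i, tl x i + b * ∑ i, tl y i := by
      simp [tl, Finset.sum_add_distrib, Finset.mul_sum]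
    rw [e]
    simp only [PiLp.add_apply, PiLp.smul_apply, smul_eq_mul]
    have e2 : ε * (1 - (a * ∑ i, tl x i + b * ∑ i, tl y i)) =
        a * (ε * (1 - ∑ i, tl x i)) + b * (ε * (1 - ∑ i, tl y i)) := by
      have : (1 : ℝ) = a + b := hab.symm
      linear_combination ε * this
    rw [e2]
    rcases ha.eq_or_lt with h | h
    · rw [← h] at hab ⊢
      have : b = 1 := by linarith
      rw [this]; linarith
    · have h3 := mul_lt_mul_of_pos_left h1 h
      have h4 := mul_le_mul_of_nonneg_left h2.le hb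
      linarith

lemma bdd_Om (m : ℕ) {ε : ℝ} (hε : 0 < ε) : Bornology.IsBounded (Om m ε) := by
  refine (Metric.isBounded_closedBall (x := (0 : E (m + 1))) (r := √ (ε ^ 2 + m))).subset ?_
  intro x hx
  rw [mem_closedBall_zero_iff, EuclideanSpace.norm_eq]
  refine Real.sqrt_le_sqrt ?_
  rw [Fin.sum_univ_succ]
  have h0 : 0 ≤ ∑ i, tl x i := Finset.sum_nonneg fun i _ => (hx.1.1 i).le
  refine add_le_add ?_ ?_
  · rw [Real.norm_eq_abs, sq_abs]
    have h1 := hx.2.1
    have h2 := hx.2.2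
    have h3 : x 0 ≤ ε := by nlinarith
    nlinarith
  · have h1 : ∀ i : Fin m, ‖x i.succ‖ ^ 2 ≤ 1 := by
      intro i
      rw [Real.norm_eq_abs, sq_abs]
      have h2 := hx.1.1 i
      have h3 : tl x i ≤ ∑ j, tl x j :=
        Finset.single_le_sum (f := fun j => tl x j) (fun j _ => (hx.1.1 j).le) (Finset.mem_univ i)
      have h4 : tl x i < 1 := lt_of_le_of_lt h3 hx.1.2
      change tl x i ^ 2 ≤ 1
      nlinarith
    refine (Finset.sum_le_sum fun i _ => h1 i).trans ?_
    simp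

lemma ne_Om (m : ℕ) {ε : ℝ} (hε : 0 < ε) : (Om m ε).Nonempty := by
  have h : volume (Om m ε) ≠ 0 := by
    rw [vol_Om m hε]
    have : 0 < ε / (m + 1).factorial := by positivity
    simpa using this
  exact nonempty_of_measure_ne_zero h

lemma convex_ph {m : ℕ} (δ : ℝ) : ConvexOn ℝ univ (fun x : E (m + 1) => ph δ (tl x)) := by
  have h1 : ConvexOn ℝ univ (fun _ : E (m + 1) => (0 : ℝ)) := convexOn_const 0 convex_univ
  have h2 : ConvexOn ℝ univ (fun x : E (m + 1) => 1 - (∑ i, tl x i) / δ) := by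
    refine ⟨convex_univ, fun x _ y _ a b ha hb hab => le_of_eq ?_⟩
    have e : ∑ i, tl (a • x + b • y) i = a * ∑ i, tl x i + b * ∑ i, tl y i := by
      simp [tl, Finset.sum_add_distrib, Finset.mul_sum]
    change 1 - (∑ i, tl (a • x + b • y) i) / δ =
      a * (1 - (∑ i, tl x i) / δ) + b * (1 - (∑ i, tl y i) / δ)
    rw [e]
    have : (1 : ℝ) = a + b := hab.symm
    rw [add_div, mul_div_assoc, mul_div_assoc]
    linear_combination this
  exact h1.sup h2

/-- **The lower bound**: on thin simplices, for `f = max (0, 1 - s/δ)` -/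
lemma low_key {k : ℕ} {ε δ c : ℝ} (hε : 0 < ε) (hδ : 0 < δ) (hδ1 : δ < 1)
    (h : 1 / volume.real (Om (k + 1) ε) * ∫ x in Om (k + 1) ε, ph δ (tl x) ≤
      c / (μHE[k + 1] : Measure (E (k + 1 + 1))).real (frontier (Om (k + 1) ε)) *
        ∫ x in frontier (Om (k + 1) ε), ph δ (tl x) ∂(μHE[k + 1] : Measure (E (k + 1 + 1)))) :
    (1 - δ) * (k + 2) * (J (k + 1) δ).toReal ≤
      c * (((1 + (1 + ε * (k + 1)) ^ (k + 1)) * (J (k + 1) δ).toReal + (k + 1) * ε) / 2) := by
  set j := (J (k + 1) δ).toReal with hj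
  have hJt := J_ne_top (k + 1) hδ
  have hJp : 0 < j := ENNReal.toReal_pos (J_pos (k + 1) hδ hδ1) hJt
  have hcont : Continuous fun x : E (k + 1 + 1) => ph δ (tl x) := (cont_ph δ).comp cont_tl
  have hnn : ∀ x : E (k + 1 + 1), 0 ≤ ph δ (tl x) := fun x => le_max_left _ _
  -- volume side
  have hV : volume.real (Om (k + 1) ε) = ε / (k + 1 + 1).factorial := by
    rw [Measure.real, vol_Om _ hε, ENNReal.toReal_ofReal (by positivity)]
  have hI : ε * (1 - δ) * j ≤ ∫ x in Om (k + 1) ε, ph δ (tl x) := by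
    rw [integral_eq_lintegral_of_nonneg_ae (Eventually.of_forall hnn)
      hcont.aestronglyMeasurable]
    have h1 := lint_low (m := k + 1) hε hδ
    have h2 : ∫⁻ x in Om (k + 1) ε, ENNReal.ofReal (ph δ (tl x)) ≠ ⊤ := by
      have h3 : ∫⁻ x in Om (k + 1) ε, ENNReal.ofReal (ph δ (tl x)) ≤
          ∫⁻ x in Om (k + 1) ε, 1 := by
        refine setLIntegral_mono measurable_const fun x hx => ?_
        rw [← ENNReal.ofReal_one]
        refine ENNReal.ofReal_le_ofReal (max_le zero_le_one ?_)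
        have : 0 ≤ (∑ i, tl x i) / δ :=
          div_nonneg (Finset.sum_nonneg fun i _ => (hx.1.1 i).le) hδ.le
        linarith
      refine ne_top_of_le_ne_top ?_ h3
      rw [lintegral_const, Measure.restrict_apply MeasurableSet.univ, univ_inter, vol_Om _ hε,
        one_mul]
      exact ENNReal.ofReal_ne_top
    have h4 := ENNReal.toReal_mono h2 h1
    rw [ENNReal.toReal_mul, ENNReal.toReal_ofReal (mul_nonneg hε.le (by linarith))] at h4
    exact h4
  -- boundary side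
  set σ := (μHE[k + 1] : Measure (E (k + 1 + 1))).real (frontier (Om (k + 1) ε)) with hσ
  have hσl : 2 * (1 / ((k + 1).factorial : ℝ)) ≤ σ := by
    have h1 := ENNReal.toReal_mono (upper_meas hε) (lower (m := k + 1) hε)
    rw [ENNReal.toReal_mul, ENNReal.toReal_ofReal (by positivity), ENNReal.toReal_ofNat] at h1
    exact h1
  have hB : ∫ x in frontier (Om (k + 1) ε), ph δ (tl x)
      ∂(μHE[k + 1] : Measure (E (k + 1 + 1))) ≤
      (1 + (1 + ε * (k + 1)) ^ (k + 1)) * j + (k + 1) * ε := by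
    rw [integral_eq_lintegral_of_nonneg_ae (Eventually.of_forall hnn)
      hcont.aestronglyMeasurable]
    have h1 := upper (k := k) (δ := δ) hε hδ
    have hK : ((Kc (k + 1) ε : ℝ≥0) : ℝ) = 1 + ε * (k + 1) := by
      change (1 : ℝ) + |ε| * ((k + 1 : ℕ) : ℝ) = _
      rw [abs_of_pos hε]; push_cast; ring
    have ht : (1 + (Kc (k + 1) ε : ℝ≥0∞) ^ (k + 1)) * J (k + 1) δ + (k + 1) * ENNReal.ofReal ε ≠ ⊤ := by
      refine ENNReal.add_ne_top.2 ⟨ENNReal.mul_ne_top (ENNReal.add_ne_top.2 ⟨ENNReal.one_ne_top,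
        ENNReal.pow_ne_top ENNReal.coe_ne_top⟩) hJt, ENNReal.mul_ne_top ?_ ENNReal.ofReal_ne_top⟩
      exact ENNReal.add_ne_top.2 ⟨ENNReal.natCast_ne_top k, ENNReal.one_ne_top⟩
    refine (ENNReal.toReal_mono ht h1).trans (le_of_eq ?_)
    rw [ENNReal.toReal_add, ENNReal.toReal_mul, ENNReal.toReal_mul, ENNReal.toReal_add,
      ENNReal.toReal_pow, ENNReal.coe_toReal, hK, ENNReal.toReal_ofReal hε.le, ← hj]
    · have : ((k : ℝ≥0∞) + 1).toReal = k + 1 := by
        rw [ENNReal.toReal_add (ENNReal.natCast_ne_top k) ENNReal.one_ne_top]; simp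
      rw [this]; simp
    · exact ENNReal.one_ne_top
    · exact ENNReal.pow_ne_top ENNReal.coe_ne_top
    · exact ENNReal.mul_ne_top (ENNReal.add_ne_top.2 ⟨ENNReal.one_ne_top,
        ENNReal.pow_ne_top ENNReal.coe_ne_top⟩) hJt
    · exact ENNReal.mul_ne_top (ENNReal.add_ne_top.2 ⟨ENNReal.natCast_ne_top k,
        ENNReal.one_ne_top⟩) ENNReal.ofReal_ne_top
  set I := ∫ x in frontier (Om (k + 1) ε), ph δ (tl x)
      ∂(μHE[k + 1] : Measure (E (k + 1 + 1))) with hI'
  have hI0 : 0 ≤ I := integral_nonneg hnn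
  rw [hV] at h
  have hf0 : (0 : ℝ) < (k + 1).factorial := by positivity
  have hfac : ((k + 1 + 1).factorial : ℝ) = (k + 2) * (k + 1).factorial := by
    rw [Nat.factorial_succ]; push_cast; ring
  have hσ0 : 0 < σ := lt_of_lt_of_le (by positivity) hσl
  have h1 : (1 - δ) * j * ((k + 2) * (k + 1).factorial) ≤
      1 / (ε / ((k + 1 + 1).factorial : ℝ)) * ∫ x in Om (k + 1) ε, ph δ (tl x) := by
    rw [one_div_div, hfac]
    have h2 : (k + 2) * ((k + 1).factorial : ℝ) / ε * (ε * (1 - δ) * j) ≤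
        (k + 2) * ((k + 1).factorial : ℝ) / ε * ∫ x in Om (k + 1) ε, ph δ (tl x) :=
      mul_le_mul_of_nonneg_left hI (by positivity)
    refine le_trans (le_of_eq ?_) h2
    field_simp
  have h2 := h1.trans h
  have hpos : 0 < (1 - δ) * j * ((k + 2) * (k + 1).factorial) := by
    have : 0 < 1 - δ := by linarith
    positivity
  have hc : 0 < c := by
    by_contra hc
    have : c / σ * I ≤ 0 :=
      mul_nonpos_of_nonpos_of_nonneg (div_nonpos_of_nonpos_of_nonneg (not_lt.1 hc) hσ0.le) hI0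
    linarith
  have h3 : c / σ * I ≤ c / (2 * (1 / ((k + 1).factorial : ℝ))) *
      ((1 + (1 + ε * (k + 1)) ^ (k + 1)) * j + (k + 1) * ε) := by
    refine mul_le_mul ?_ hB hI0 (by positivity)
    exact div_le_div_of_nonneg_left hc.le (by positivity) hσl
  have h4 := h2.trans h3
  have h5 : c / (2 * (1 / ((k + 1).factorial : ℝ))) *
      ((1 + (1 + ε * (k + 1)) ^ (k + 1)) * j + (k + 1) * ε) =
      c * (((1 + (1 + ε * (k + 1)) ^ (k + 1)) * j + (k + 1) * ε) / 2) * (k + 1).factorial := by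
    field_simp
  rw [h5] at h4
  have h6 : (1 - δ) * j * ((k + 2) * ((k + 1).factorial : ℝ)) =
      (1 - δ) * (k + 2) * j * (k + 1).factorial := by ring
  rw [h6] at h4
  exact le_of_mul_le_mul_right h4 hf0

lemma low_lim' {k : ℕ} {c : ℝ} (h : ∀ ε δ : ℝ, 0 < ε → 0 < δ → δ < 1 →
    1 / volume.real (Om (k + 1) ε) * ∫ x in Om (k + 1) ε, ph δ (tl x) ≤
      c / (μHE[k + 1] : Measure (E (k + 1 + 1))).real (frontier (Om (k + 1) ε)) *
        ∫ x in frontier (Om (k + 1) ε), ph δ (tl x) ∂(μHE[k + 1] : Measure (E (k + 1 + 1)))) :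
    (k : ℝ) + 2 ≤ c := by
  have h1 : ∀ δ : ℝ, 0 < δ → δ < 1 → (1 - δ) * (k + 2) ≤ c := by
    intro δ hδ hδ1
    set j := (J (k + 1) δ).toReal with hj
    have hJp : 0 < j := ENNReal.toReal_pos (J_pos (k + 1) hδ hδ1) (J_ne_top (k + 1) hδ)
    have h2 : ∀ ε ∈ Ioi (0 : ℝ), (1 - δ) * (k + 2) * j ≤
        c * (((1 + (1 + ε * (k + 1)) ^ (k + 1)) * j + (k + 1) * ε) / 2) :=
      fun ε hε => low_key hε hδ hδ1 (h ε δ hε hδ hδ1)
    have h3 : Tendsto (fun ε : ℝ =>
        c * (((1 + (1 + ε * (k + 1)) ^ (k + 1)) * j + (k + 1) * ε) / 2)) (𝓝[>] 0)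
        (𝓝 (c * (((1 + (1 + 0 * ((k : ℝ) + 1)) ^ (k + 1)) * j + (k + 1) * 0) / 2))) := by
      refine Tendsto.mono_left ?_ nhdsWithin_le_nhds
      have : Continuous fun ε : ℝ =>
        c * (((1 + (1 + ε * (k + 1)) ^ (k + 1)) * j + (k + 1) * ε) / 2) := by fun_prop
      exact this.tendsto 0
    have h4 := ge_of_tendsto h3 (eventually_nhdsWithin_of_forall h2)
    have h5 : c * (((1 + (1 + 0 * ((k : ℝ) + 1)) ^ (k + 1)) * j + (k + 1) * 0) / 2) = c * j := by
      rw [zero_mul, add_zero, one_pow]; ring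
    rw [h5] at h4
    exact le_of_mul_le_mul_right h4 hJp
  have h2 : Tendsto (fun δ : ℝ => (1 - δ) * ((k : ℝ) + 2)) (𝓝[>] 0)
      (𝓝 ((1 - 0) * ((k : ℝ) + 2))) := by
    refine Tendsto.mono_left ?_ nhdsWithin_le_nhds
    have : Continuous fun δ : ℝ => (1 - δ) * ((k : ℝ) + 2) := by fun_prop
    exact this.tendsto 0
  have h3 : ∀ᶠ δ in 𝓝[>] (0 : ℝ), (1 - δ) * ((k : ℝ) + 2) ≤ c := by
    filter_upwards [Ioo_mem_nhdsGT (show (0 : ℝ) < 1 by norm_num)] with δ hδ
    exact h1 δ hδ.1 hδ.2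
  have h4 := le_of_tendsto h2 h3
  linarith

lemma low_lim {k : ℕ} {c : ℝ} (h : HHIneq (k + 2) c) : (k : ℝ) + 2 ≤ c :=
  low_lim' fun ε δ hε _ _ =>
    h (Om (k + 1) ε) (isOpen_Om _ _) (convex_Om _ _) (bdd_Om _ hε) (ne_Om _ hε)
      (fun x => ph δ (tl x)) ((cont_ph δ).comp cont_tl).continuousOn
      (fun _ _ => le_max_left _ _) ((convex_ph δ).subset (subset_univ _) (convex_Om _ _))

/-- the hinge function is a maximum of `0` and an affine function -/
lemma ph_hinge {m : ℕ} (δ : ℝ) : ∃ v : E (m + 1), ∀ x : E (m + 1),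
    ph δ (tl x) = max 0 (1 - inner ℝ v x) := by
  refine ⟨WithLp.toLp 2 (Fin.cons 0 (fun _ => δ⁻¹)), fun x => ?_⟩
  unfold ph
  congr 2
  rw [PiLp.inner_apply, Fin.sum_univ_succ]
  simp [tl, div_eq_mul_inv, Finset.sum_mul]

end Pool.Agent.TH581.HH
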