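import Pool.Agent.TH581.HH.B

/-!
Statements for the sharp Hermite-Hadamard inequality for convex functions on convex domains.
`E n = EuclideanSpace ℝ (Fin n)`, `pr : E (m+1) → E m` forgets the coordinate `0`.
-/

set_option autoImplicit false

noncomputable section

open MeasureTheory Set
open scoped ENNReal NNReal Pointwise

namespace Pool.Agent.TH581.HH

/-- the polyhedron `{x | ⟨ν i, x⟩ ≤ b i for all i}` -/
def Poly {n N : ℕ} (ν : Fin N → E n) (b : Fin N → ℝ) : Set (E n) :=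
  {x | ∀ i, inner ℝ (ν i) x ≤ b i}

/-- its `i`-th facet -/
def Fac {n N : ℕ} (ν : Fin N → E n) (b : Fin N → ℝ) (i : Fin N) : Set (E n) :=
  {x | x ∈ Poly ν b ∧ inner ℝ (ν i) x = b i}

/-- unit normals, pairwise different half spaces, compact, with interior -/
structure Good {n N : ℕ} (ν : Fin N → E n) (b : Fin N → ℝ) : Prop where
  unit : ∀ i, ‖ν i‖ = 1
  inj : ∀ i j, ν i = ν j → b i = b j → i = j
  cpt : IsCompact (Poly ν b)
  int : (interior (Poly ν b)).Nonempty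

/-- the point of the hyperplane `⟨ν, x⟩ = b` over `z` -/
def hg {m : ℕ} (ν : E (m + 1)) (b : ℝ) (z : E m) : E (m + 1) :=
  WithLp.toLp 2 (Fin.cons ((b - ∑ i, ν i.succ * z i) / ν 0) (fun i => z i))

/-- (FAC) surface measure on a hyperplane in graph coordinates -/
def S_FAC : Prop := ∀ (m : ℕ) (ν : E (m + 1)) (b : ℝ), ‖ν‖ = 1 → ν 0 ≠ 0 →
  ∀ S : Set (E m), MeasurableSet S → ∀ f : E (m + 1) → ℝ≥0∞, Measurable f →
    ENNReal.ofReal |ν 0| * ∫⁻ x in hg ν b '' S, f x ∂(μHE[m] : Measure (E (m + 1))) =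
      ∫⁻ z in S, f (hg ν b z)

/-- (CONE) projection times vertical chord is at most `n` times the volume -/
def S_CONE : Prop := ∀ (m : ℕ) (K : Set (E (m + 1))), IsCompact K → Convex ℝ K →
  ∀ (z₀ : E m) (t₀ l : ℝ), 0 ≤ l →
    (∀ t ∈ Icc t₀ (t₀ + l), (WithLp.toLp 2 (Fin.cons t (fun i => z₀ i)) : E (m + 1)) ∈ K) →
    volume (pr '' K) * ENNReal.ofReal l ≤ (m + 1 : ℕ) * volume K

/-- (STAR) the weighted inequality for the coordinate direction `e₀` -/
def S_STAR : Prop := ∀ (m N : ℕ) (ν : Fin N → E (m + 1)) (b : Fin N → ℝ), Good ν b →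
  ∀ f : E (m + 1) → ℝ, Continuous f → (∀ x, 0 ≤ f x) → ConvexOn ℝ (Poly ν b) f →
    (∑ i, ENNReal.ofReal |ν i 0| * (μHE[m] : Measure (E (m + 1))) (Fac ν b i)) *
        ∫⁻ x in Poly ν b, ENNReal.ofReal (f x) ≤
      (m + 1 : ℕ) * volume (Poly ν b) *
        ∑ i, ENNReal.ofReal |ν i 0| *
          ∫⁻ x in Fac ν b i, ENNReal.ofReal (f x) ∂(μHE[m] : Measure (E (m + 1)))

/-- (SUM) the inequality with the sums over the facets -/
def S_SUM : Prop := ∀ (m N : ℕ) (ν : Fin N → E (m + 1)) (b : Fin N → ℝ), Good ν b →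
  ∀ f : E (m + 1) → ℝ, Continuous f → (∀ x, 0 ≤ f x) → ConvexOn ℝ (Poly ν b) f →
    (∑ i, (μHE[m] : Measure (E (m + 1))) (Fac ν b i)) *
        ∫⁻ x in Poly ν b, ENNReal.ofReal (f x) ≤
      (m + 1 : ℕ) * volume (Poly ν b) *
        ∑ i, ∫⁻ x in Fac ν b i, ENNReal.ofReal (f x) ∂(μHE[m] : Measure (E (m + 1)))

/-- (POLY) the inequality for polytopes -/
def S_POLY : Prop := ∀ (m N : ℕ) (ν : Fin N → E (m + 1)) (b : Fin N → ℝ), 1 ≤ m → Good ν b →
  ∀ f : E (m + 1) → ℝ, Continuous f → (∀ x, 0 ≤ f x) → ConvexOn ℝ (Poly ν b) f →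
    (μHE[m] : Measure (E (m + 1))) (frontier (Poly ν b)) *
        ∫⁻ x in Poly ν b, ENNReal.ofReal (f x) ≤
      (m + 1 : ℕ) * volume (Poly ν b) *
        ∫⁻ x in frontier (Poly ν b), ENNReal.ofReal (f x) ∂(μHE[m] : Measure (E (m + 1)))

/-- (APA) approximation by polytopes -/
def S_APA : Prop := ∀ (n : ℕ) (K : Set (E n)), IsCompact K → Convex ℝ K →
  (0 : E n) ∈ interior K → ∀ ε : ℝ, 0 < ε →
    ∃ (N : ℕ) (ν : Fin N → E n) (b : Fin N → ℝ), Good ν b ∧ K ⊆ Poly ν b ∧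
      Poly ν b ⊆ (1 + ε) • K

/-- (APB) the nearest point map onto `P` maps the boundary of a larger body onto the boundary
of `P` -/
def S_APB : Prop := ∀ (n : ℕ) (P K : Set (E n)), IsCompact P → Convex ℝ P →
  (interior P).Nonempty → IsCompact K → P ⊆ K → ∃ p : E n → E n, LipschitzWith 1 p ∧ (∀ x, p x ∈ P) ∧
    (∀ x, ∀ y ∈ P, dist x (p x) ≤ dist x y) ∧ frontier P ⊆ p '' frontier K

/-- (FULL) the inequality for all convex bodies -/
def S_FULL : Prop := ∀ (m : ℕ) (K : Set (E (m + 1))), 1 ≤ m → IsCompact K → Convex ℝ K →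
  (interior K).Nonempty → ∀ f : E (m + 1) → ℝ, Continuous f → (∀ x, 0 ≤ f x) →
    ConvexOn ℝ K f →
    (μHE[m] : Measure (E (m + 1))) (frontier K) * ∫⁻ x in K, ENNReal.ofReal (f x) ≤
      (m + 1 : ℕ) * volume K *
        ∫⁻ x in frontier K, ENNReal.ofReal (f x) ∂(μHE[m] : Measure (E (m + 1)))

end Pool.Agent.TH581.HH
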