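import Pool.Agent.TH581.HH.Low
import Pool.Agent.TH581.HH.Stm

/-!
The upper bound for the constant from `S_FULL`.
-/

set_option autoImplicit false

noncomputable section

open MeasureTheory Set Filter
open scoped ENNReal NNReal Topology Pointwise

namespace Pool.Agent.TH581.HH

/-- the boundary of a convex body has finite measure -/
lemma bd_fin (hB : S_APB) {k : ℕ} {K : Set (E (k + 2))} (hc : Convex ℝ K) (hK : IsCompact K)
    (hi : (interior K).Nonempty) :
    (μHE[k + 1] : Measure (E (k + 2))) (frontier K) ≠ ⊤ := by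
  obtain ⟨R, hR⟩ := hK.isBounded.exists_norm_le
  set R' : ℝ := |R| + 1 with hR'
  have hR'0 : 0 < R' := by positivity
  set r : ℝ := 2 * R' * (k + 2) + 1 with hr
  have hr0 : 0 < r := by positivity
  set v : E (k + 2) := WithLp.toLp 2 (fun _ => -R') with hv
  let g : E (k + 2) ≃ₜ E (k + 2) :=
    (Homeomorph.smulOfNeZero r hr0.ne').trans (Homeomorph.addLeft v)
  have hg : ∀ x, g x = v + r • x := fun x => rfl
  have hgl : LipschitzWith ⟨r, hr0.le⟩ g := by
    refine LipschitzWith.of_dist_le_mul fun x y => le_of_eq ?_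
    rw [hg, hg, dist_add_left, dist_smul₀, Real.norm_of_nonneg hr0.le]
    rfl
  set T : Set (E (k + 2)) := g '' closure (Om (k + 1) 1) with hT
  have hKT : K ⊆ T := by
    intro x hx
    have hx' : ∀ i, |x i| ≤ |R| := by
      intro i
      have h1 : ‖x i‖ ≤ ‖x‖ := PiLp.norm_apply_le x i
      rw [Real.norm_eq_abs] at h1
      exact h1.trans ((hR x hx).trans (le_abs_self R))
    refine ⟨r⁻¹ • (x - v), subset_closure ?_, ?_⟩
    · have e : ∀ i, (r⁻¹ • (x - v)) i = (x i + R') / r := by
        intro i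
        simp only [PiLp.smul_apply, PiLp.sub_apply, smul_eq_mul, hv]
        field_simp
        ring
      have hpos : ∀ i, 0 < (x i + R') / r := by
        intro i
        refine div_pos ?_ hr0
        have := (abs_le.1 (hx' i)).1
        linarith
      have hle : ∀ i, (x i + R') / r ≤ 2 * R' / r := by
        intro i
        refine div_le_div_of_nonneg_right ?_ hr0.le
        have := (abs_le.1 (hx' i)).2
        linarith
      have htot : (x 0 + R') / r + ∑ i : Fin (k + 1), (x i.succ + R') / r < 1 := by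
        have h1 : (x 0 + R') / r + ∑ i : Fin (k + 1), (x i.succ + R') / r ≤
            2 * R' / r + ∑ _i : Fin (k + 1), 2 * R' / r :=
          add_le_add (hle 0) (Finset.sum_le_sum fun i _ => hle i.succ)
        refine lt_of_le_of_lt h1 ?_
        simp only [Finset.sum_const, Finset.card_univ, Fintype.card_fin, nsmul_eq_mul]
        push_cast
        rw [← one_add_mul, mul_div_assoc', div_lt_one hr0, hr]
        linarith
      have hs : ∑ i, tl (r⁻¹ • (x - v)) i = ∑ i : Fin (k + 1), (x i.succ + R') / r :=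
        Finset.sum_congr rfl fun i _ => e i.succ
      refine ⟨⟨fun i => ?_, ?_⟩, ?_, ?_⟩
      · change 0 < (r⁻¹ • (x - v)) i.succ
        rw [e]; exact hpos _
      · rw [hs]; linarith [hpos 0]
      · rw [e]; exact hpos 0
      · rw [hs, e, one_mul]; linarith
    · rw [hg, smul_smul, mul_inv_cancel₀ hr0.ne', one_smul]
      abel
  have hTc : IsCompact T := by
    refine IsCompact.image ?_ g.continuous
    exact (bdd_Om (k + 1) one_pos).isCompact_closure
  obtain ⟨p, hp1, -, -, hp4⟩ := hB (k + 2) K T hK hc hi hTc hKT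
  have h1 : (μHE[k + 1] : Measure (E (k + 2))) (frontier T) ≠ ⊤ := by
    rw [hT, ← g.image_frontier]
    refine ne_top_of_le_ne_top ?_ ((lip_image hgl (k + 1) _))
    refine ENNReal.mul_ne_top (ENNReal.pow_ne_top ENNReal.coe_ne_top) ?_
    exact ne_top_of_le_ne_top (upper_meas (k := k) one_pos) (measure_mono frontier_closure_subset)
  refine ne_top_of_le_ne_top ?_ ((measure_mono hp4).trans (lip_image hp1 (k + 1) _))
  exact ENNReal.mul_ne_top (ENNReal.pow_ne_top ENNReal.coe_ne_top) h1

/-- the boundary of a bounded domain has positive measure -/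
lemma bd_pos {m : ℕ} {Ω : Set (E (m + 1))} (ho : IsOpen Ω) (hb : Bornology.IsBounded Ω)
    (hne : Ω.Nonempty) : (μHE[m] : Measure (E (m + 1))) (frontier Ω) ≠ 0 := by
  intro h0
  have h1 := lip_image (lip_pr (m := m)) m (frontier Ω)
  rw [h0, mul_zero, EuclideanSpace.euclideanHausdorffMeasure_eq_volume] at h1
  have h2 : pr '' Ω ⊆ pr '' frontier Ω := by
    rintro _ ⟨x, hx, rfl⟩
    set e : E (m + 1) := EuclideanSpace.single 0 1 with he
    have hpr : ∀ t : ℝ, pr (x + t • e) = pr x := by
      intro t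
      ext i
      change (x + t • e) i.succ = x i.succ
      simp [he]
    set S : Set ℝ := {t | 0 ≤ t ∧ x + t • e ∈ closure Ω} with hS
    have hSc : IsClosed S := by
      have h3 : IsClosed {t : ℝ | 0 ≤ t} := isClosed_Ici
      have h4 : IsClosed {t : ℝ | x + t • e ∈ closure Ω} :=
        isClosed_closure.preimage (by fun_prop)
      exact h3.inter h4
    have h0S : (0 : ℝ) ∈ S := ⟨le_rfl, by rw [zero_smul, add_zero]; exact subset_closure hx⟩
    obtain ⟨R, hR⟩ := hb.closure.exists_norm_le
    have hSb : BddAbove S := by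
      refine ⟨R + ‖x‖, fun t ht => ?_⟩
      have h3 := hR _ ht.2
      have h4 : ‖t • e‖ = t := by
        rw [norm_smul, Real.norm_of_nonneg ht.1, he]; simp
      have h5 : ‖t • e‖ ≤ ‖x + t • e‖ + ‖x‖ := by
        have := norm_sub_le (x + t • e) x
        rwa [add_sub_cancel_left] at this
      linarith
    have hmem := hSc.csSup_mem ⟨0, h0S⟩ hSb
    refine ⟨x + sSup S • e, ?_, hpr _⟩
    rw [ho.frontier_eq]
    refine ⟨hmem.2, fun hin => ?_⟩
    have h6 : ∀ᶠ t in 𝓝 (sSup S), x + t • e ∈ Ω := by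
      have : ContinuousAt (fun t : ℝ => x + t • e) (sSup S) := by fun_prop
      exact this.eventually (ho.mem_nhds hin)
    have h7 : ∀ᶠ t in 𝓝[>] (sSup S), x + t • e ∈ Ω := h6.filter_mono nhdsWithin_le_nhds
    obtain ⟨t, ht1, ht2⟩ := (h7.and self_mem_nhdsWithin).exists
    have h8 : t ∈ S := ⟨hmem.1.trans (le_of_lt ht2), subset_closure ht1⟩
    exact absurd (le_csSup hSb h8) (not_le.2 ht2)
  have h3 : volume (pr '' Ω) = 0 := measure_mono_null h2 (le_antisymm h1 bot_le)
  obtain ⟨x, hx⟩ := hne
  -- `pr '' Ω` contains a ball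
  obtain ⟨r, hr, hball⟩ := Metric.isOpen_iff.1 ho x hx
  have h4 : Metric.ball (pr x) r ⊆ pr '' Ω := by
    intro z hz
    set y : E (m + 1) := WithLp.toLp 2 (Fin.cons (x 0) (fun i => z i)) with hy
    have hpy : pr y = z := rfl
    refine ⟨y, hball ?_, hpy⟩
    rw [Metric.mem_ball] at hz ⊢
    refine lt_of_le_of_lt ?_ hz
    refine abs_le_of_sq_le_sq' ?_ dist_nonneg |>.2
    rw [EuclideanSpace.dist_eq, EuclideanSpace.dist_eq, Real.sq_sqrt (by positivity),
      Real.sq_sqrt (by positivity), Fin.sum_univ_succ]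
    have e0 : dist (y 0) (x 0) = 0 := by simp [hy]
    rw [e0]
    have e1 : ∀ i : Fin m, dist (z i) ((pr x) i) ^ 2 = dist (y i.succ) (x i.succ) ^ 2 :=
      fun i => rfl
    simp only [e1]
    simp
  have h5 := Metric.measure_ball_pos (volume : Measure (E m)) (pr x) hr
  exact h5.ne' (measure_mono_null h4 h3)

lemma convexOn_closure {n : ℕ} {Ω : Set (E n)} (hΩ : Convex ℝ Ω) {F : E n → ℝ}
    (hF : Continuous F) (h : ConvexOn ℝ Ω F) : ConvexOn ℝ (closure Ω) F := by
  refine ⟨hΩ.closure, fun x hx y hy a b ha hb hab => ?_⟩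
  have hcl : IsClosed {q : E n × E n | F (a • q.1 + b • q.2) ≤ a • F q.1 + b • F q.2} :=
    isClosed_le (by fun_prop) (by fun_prop)
  have hsub : Ω ×ˢ Ω ⊆ {q : E n × E n | F (a • q.1 + b • q.2) ≤ a • F q.1 + b • F q.2} :=
    fun q hq => h.2 hq.1 hq.2 ha hb hab
  have := closure_minimal hsub hcl
  rw [closure_prod_eq] at this
  exact this (⟨hx, hy⟩ : (x, y) ∈ closure Ω ×ˢ closure Ω)

theorem up_key (hB : S_APB) (hF : S_FULL) (k : ℕ) : HHIneq (k + 2) (k + 2) := by
  intro Ω ho hc hb hne f hf hf0 hfc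
  obtain ⟨g, hg⟩ := ContinuousMap.exists_restrict_eq (isClosed_closure (s := Ω))
    (⟨(closure Ω).restrict f, continuousOn_iff_continuous_restrict.1 hf⟩ : C(closure Ω, ℝ))
  set F : E (k + 2) → ℝ := fun x => max 0 (g x) with hFd
  have hFc : Continuous F := by fun_prop
  have hF0 : ∀ x, 0 ≤ F x := fun x => le_max_left _ _
  have hFf : ∀ x ∈ closure Ω, F x = f x := by
    intro x hx
    have h1 : g x = f x := by
      have := congrArg (fun q : C(closure Ω, ℝ) => q ⟨x, hx⟩) hg
      exact this
    rw [hFd]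
    simp only [h1]
    exact max_eq_right (hf0 x hx)
  have hFcv : ConvexOn ℝ Ω F := by
    refine ⟨hc, fun x hx y hy a b ha hb' hab => ?_⟩
    rw [hFf _ (subset_closure (hc hx hy ha hb' hab)), hFf x (subset_closure hx),
      hFf y (subset_closure hy)]
    exact hfc.2 hx hy ha hb' hab
  have hK : IsCompact (closure Ω) := hb.isCompact_closure
  have hint : interior (closure Ω) = Ω := by
    rw [hc.interior_closure_eq_interior_of_nonempty_interior (by rwa [ho.interior_eq]),
      ho.interior_eq]
  have hfr : frontier (closure Ω) = frontier Ω := by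
    rw [frontier, closure_closure, hint, ho.frontier_eq]
  have hmain := hF (k + 1) (closure Ω) (Nat.le_add_left 1 k) hK hc.closure (by rwa [hint]) F hFc hF0
    (convexOn_closure hc hFc hFcv)
  rw [hfr] at hmain
  have hres : (volume : Measure (E (k + 2))).restrict (closure Ω) = volume.restrict Ω := by
    refine Measure.restrict_congr_set ?_
    rw [closure_eq_self_union_frontier]
    have h := hc.addHaar_frontier (volume : Measure (E (k + 2)))
    exact union_ae_eq_left_of_ae_eq_empty (ae_eq_empty.2 h)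
  have hvol : volume (closure Ω) = volume Ω := by
    have h := congrArg (fun μ : Measure (E (k + 2)) => μ univ) hres
    simpa only [Measure.restrict_apply MeasurableSet.univ, univ_inter] using h
  have hσt : (μHE[k + 1] : Measure (E (k + 2))) (frontier Ω) ≠ ⊤ := by
    rw [← hfr]
    exact bd_fin hB hc.closure hK (by rwa [hint])
  have hσ0 := bd_pos ho hb hne
  have hV0 : volume Ω ≠ 0 := (ho.measure_pos volume hne).ne'
  have hVt : volume Ω ≠ ⊤ := hb.measure_lt_top.ne
  have eI : ∫ x in Ω, f x = (∫⁻ x in closure Ω, ENNReal.ofReal (F x)).toReal := by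
    rw [hres, ← integral_eq_lintegral_of_nonneg_ae (Eventually.of_forall hF0)
      hFc.aestronglyMeasurable]
    exact setIntegral_congr_fun ho.measurableSet fun x hx => (hFf x (subset_closure hx)).symm
  have eB : ∫ x in frontier Ω, f x ∂(μHE[k + 1] : Measure (E (k + 2))) =
      (∫⁻ x in frontier Ω, ENNReal.ofReal (F x) ∂(μHE[k + 1] : Measure (E (k + 2)))).toReal := by
    rw [← integral_eq_lintegral_of_nonneg_ae (Eventually.of_forall hF0)
      hFc.aestronglyMeasurable]
    exact setIntegral_congr_fun isClosed_frontier.measurableSet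
      fun x hx => (hFf x (frontier_subset_closure hx)).symm
  obtain ⟨M, hM⟩ := hK.exists_bound_of_continuousOn hFc.continuousOn
  have hBt : ∫⁻ x in frontier Ω, ENNReal.ofReal (F x) ∂(μHE[k + 1] : Measure (E (k + 2))) ≠ ⊤ := by
    have h1 : ∫⁻ x in frontier Ω, ENNReal.ofReal (F x) ∂(μHE[k + 1] : Measure (E (k + 2))) ≤
        ∫⁻ _ in frontier Ω, ENNReal.ofReal M ∂(μHE[k + 1] : Measure (E (k + 2))) := by
      refine setLIntegral_mono measurable_const fun x hx => ENNReal.ofReal_le_ofReal ?_
      exact (le_abs_self _).trans (hM x (frontier_subset_closure hx))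
    refine ne_top_of_le_ne_top ?_ h1
    rw [lintegral_const, Measure.restrict_apply MeasurableSet.univ, univ_inter]
    exact ENNReal.mul_ne_top ENNReal.ofReal_ne_top hσt
  change 1 / volume.real Ω * ∫ x in Ω, f x ≤
    ((k : ℝ) + 2) / (μHE[k + 1] : Measure (E (k + 2))).real (frontier Ω) *
      ∫ x in frontier Ω, f x ∂(μHE[k + 1] : Measure (E (k + 2)))
  rw [eI, eB]
  rw [hvol] at hmain
  have hreal := ENNReal.toReal_mono (ENNReal.mul_ne_top (ENNReal.mul_ne_top
    (ENNReal.natCast_ne_top _) hVt) hBt) hmain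
  rw [ENNReal.toReal_mul, ENNReal.toReal_mul, ENNReal.toReal_mul, ENNReal.toReal_natCast] at hreal
  push_cast at hreal
  have hV : 0 < volume.real Ω := ENNReal.toReal_pos hV0 hVt
  have hσ : 0 < (μHE[k + 1] : Measure (E (k + 2))).real (frontier Ω) :=
    ENNReal.toReal_pos hσ0 hσt
  rw [one_div, inv_mul_eq_div, div_mul_eq_mul_div, div_le_div_iff₀ hV hσ]
  have e2 : (k : ℝ) + 1 + 1 = k + 2 := by ring
  rw [e2] at hreal
  change (μHE[k + 1] : Measure (E (k + 2))).real (frontier Ω) * _ ≤
    (k + 2) * volume.real Ω * _ at hreal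
  linarith

theorem up_mono {n : ℕ} {c d : ℝ} (h : HHIneq n c) (hcd : c ≤ d) : HHIneq n d := by
  intro Ω ho hc hb hne f hf hf0 hfc
  refine (h Ω ho hc hb hne f hf hf0 hfc).trans ?_
  refine mul_le_mul_of_nonneg_right (div_le_div_of_nonneg_right hcd ENNReal.toReal_nonneg) ?_
  exact setIntegral_nonneg isClosed_frontier.measurableSet
    fun x hx => hf0 x (frontier_subset_closure hx)

end Pool.Agent.TH581.HH
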